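import Pool.Agent.Run7.h870.BS.Uy

/-!
# MP_94fdc2_nt: for every large `n`, splittings `n = x + y` with `x` prime and `n x + y`, `n y - x`
almost primes

The problem asks whether every `n > 2` is `x + y` with `x, y > 0` and `n x + y`, `n y - x` both
prime. Here: every large `n` has at least `c * n / log ^ 3 n` splittings `n = x + y`
with `x` prime for which both numbers have all their prime factors at least `n ^ δ`, hence at most
`R` prime factors.
-/

set_option autoImplicit false

open Finset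

namespace Pool.Agent.Results.MP_94fdc2_nt.PrimeSummandAlmostPrimes

/-- the pairs `(x, y)` of positive integers with `x + y = n`, `x` prime, such that `n x + y` and
`n y - x` have at most `R` prime factors, counted with multiplicity, all of them at least `z` -/
def good (n R : ℕ) (z : ℝ) : Set (ℕ × ℕ) :=
  {q | q.1.Prime ∧ 0 < q.2 ∧ q.1 + q.2 = n ∧
    (∀ l : ℕ, l.Prime → l ∣ n * q.1 + q.2 ∨ l ∣ n * q.2 - q.1 → z ≤ l) ∧
    ArithmeticFunction.cardFactors (n * q.1 + q.2) ≤ R ∧
    ArithmeticFunction.cardFactors (n * q.2 - q.1) ≤ R}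

/-- There are `δ, c > 0`, `R` and `n₀` such that every `n ≥ n₀` has at least `c * n / (log n) ^ 3`
splittings `n = x + y` into positive integers with `x` prime for which `n x + y` and `n y - x` have
at most `R` prime factors, all at least `n ^ δ`. -/
theorem result : ∃ (δ c : ℝ) (R : ℕ), 0 < δ ∧ 0 < c ∧ ∃ n₀ : ℕ, ∀ n : ℕ, n₀ ≤ n →
    c * (n / Real.log n ^ 3) ≤ ((good n R ((n : ℝ) ^ δ)).ncard : ℝ) := by
  have hsize : ∀ n p : ℕ, 4 ≤ n → (p : ℝ) < 2 * (1 / 2 * n) → p < n := by
    intro n p hn h2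
    have h2 : (p : ℝ) < n := by linarith
    exact_mod_cast h2
  have h4 : ∀ n : ℕ, 4 ≤ n → n * n + n ≤ n ^ 4 := by
    intro n hn
    have h5 : n * n * 16 ≤ n ^ 4 := by
      calc n * n * 16 ≤ n * n * (n * n) := Nat.mul_le_mul_left _ (by nlinarith)
        _ = n ^ 4 := by ring
    nlinarith
  obtain ⟨δ, c, R, hδ, hc, n₀, hn₀, h⟩ := Run7.h870.BS2.wrap (1 / 2) (by norm_num) (by norm_num)
    (fun n => (n : ℤ)) (fun n => (n : ℤ) ^ 2) (fun n => (n : ℤ) - 1) (fun n => -((n : ℤ) + 1))
    (fun n p => n * p + (n - p)) (fun n p => n * (n - p) - p) (by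
      intro n p hn h1 h2
      have hp := hsize n p hn h2
      have h0 : (0 : ℝ) < p := lt_of_le_of_lt (by positivity) h1
      have h0 : 0 < p := by exact_mod_cast h0
      have h5 := h4 n hn
      refine ⟨?_, by omega, ?_⟩
      · rw [Nat.cast_add, Nat.cast_mul, Nat.cast_sub hp.le]
        ring
      · have h6 : n * p ≤ n * n := Nat.mul_le_mul_left _ hp.le
        omega) (by
      intro n p hn h1 h2
      have hp := hsize n p hn h2
      have h0 : (0 : ℝ) < p := lt_of_le_of_lt (by positivity) h1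
      have h0 : 0 < p := by exact_mod_cast h0
      have h5 := h4 n hn
      have h7 : n * 1 ≤ n * (n - p) := Nat.mul_le_mul_left _ (by omega)
      refine ⟨?_, by omega, ?_⟩
      · rw [Nat.cast_sub (by omega), Nat.cast_mul, Nat.cast_sub hp.le]
        ring
      · have h6 : n * (n - p) ≤ n * n := Nat.mul_le_mul_left _ (by omega)
        omega) (by
      intro n l hl h3
      have hl' : Prime (l : ℤ) := Nat.prime_iff_prime_int.1 hl
      have h1 : ∀ x : ℤ, (l : ℤ) ∣ x - 1 → ¬ (l : ℤ) ∣ x := by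
        intro x h5 h6
        have h7 : (l : ℤ) ∣ 1 := by
          have := dvd_sub h6 h5
          rwa [sub_sub_cancel] at this
        have := Int.le_of_dvd (by norm_num) h7
        omega
      constructor
      · by_cases h5 : (l : ℤ) ∣ (n : ℤ) - 1
        · exact Or.inr (h1 _ h5)
        · exact Or.inl h5
      · by_cases h5 : (l : ℤ) ∣ (n : ℤ) + 1
        · refine Or.inr fun h6 => ?_
          have h7 := hl'.dvd_of_dvd_pow h6
          have h8 := dvd_sub h5 h7
          rw [add_sub_cancel_left] at h8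
          have := Int.le_of_dvd (by norm_num) h8
          omega
        · exact Or.inl fun h6 => h5 ((dvd_neg).1 h6)) (by
      intro n
      refine ⟨1, by norm_num, ?_, ?_⟩
      · have h5 : (n : ℤ) + ((n : ℤ) - 1) * ((1 : ℕ) : ℤ) = 2 * n - 1 := by push_cast; ring
        rw [h5]
        omega
      · have h1 : Even ((n : ℤ) * ((n : ℤ) - 1)) := Int.even_mul_pred_self n
        obtain ⟨k, hk⟩ := h1
        have h5 : (n : ℤ) ^ 2 + -((n : ℤ) + 1) * ((1 : ℕ) : ℤ) = k + k - 1 := by
          rw [← hk]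
          push_cast
          ring
        rw [h5]
        omega) (by
      intro n
      obtain ⟨k, hk⟩ : ∃ k : ℤ, (n : ℤ) = 3 * k ∨ (n : ℤ) = 3 * k + 1 ∨ (n : ℤ) = 3 * k + 2 := ⟨(n : ℤ) / 3, by omega⟩
      rcases hk with hk | hk | hk
      · refine ⟨1, by norm_num, ?_, ?_⟩
        · rw [hk, show 3 * k + (3 * k - 1) * ((1 : ℕ) : ℤ) = 3 * (2 * k) - 1 by push_cast; ring]
          omega
        · rw [hk, show (3 * k) ^ 2 + -(3 * k + 1) * ((1 : ℕ) : ℤ) = 3 * (3 * k ^ 2 - k) - 1 by push_cast; ring]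
          omega
      · refine ⟨1, by norm_num, ?_, ?_⟩
        · rw [hk, show 3 * k + 1 + (3 * k + 1 - 1) * ((1 : ℕ) : ℤ) = 3 * (2 * k) + 1 by push_cast; ring]
          omega
        · rw [hk, show (3 * k + 1) ^ 2 + -(3 * k + 1 + 1) * ((1 : ℕ) : ℤ) = 3 * (3 * k ^ 2 + k) - 1 by push_cast; ring]
          omega
      · refine ⟨2, by norm_num, ?_, ?_⟩
        · rw [hk, show 3 * k + 2 + (3 * k + 2 - 1) * ((2 : ℕ) : ℤ) = 3 * (3 * k + 1) + 1 by push_cast; ring]
          omega
        · rw [hk, show (3 * k + 2) ^ 2 + -(3 * k + 2 + 1) * ((2 : ℕ) : ℤ) = 3 * (3 * k ^ 2 + 2 * k - 1) + 1 by push_cast; ring]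
          omega)
  refine ⟨δ, c, R, hδ, hc, max n₀ 4, fun n hn => ?_⟩
  have hn4 : 4 ≤ n := le_trans (le_max_right _ _) hn
  obtain ⟨T, hT, hTp⟩ := h n (le_trans (le_max_left _ _) hn)
  refine hT.trans ?_
  have h5 : T.card = (T.image (fun p => (p, n - p))).card := by
    classical
    rw [card_image_of_injOn]
    intro x _ y _ hxy
    simp only [Prod.mk.injEq] at hxy
    exact hxy.1
  rw [Nat.cast_le, h5, ← Set.ncard_coe_finset]
  apply Set.ncard_le_ncard
  · intro q hq
    rw [mem_coe, mem_image] at hq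
    obtain ⟨p, hp, rfl⟩ := hq
    obtain ⟨h1, h2, h3, h6⟩ := hTp p hp
    have hpn := hsize n p hn4 h3
    exact ⟨h1, by show 0 < n - p; omega, by show p + (n - p) = n; omega, h6⟩
  · apply Set.Finite.subset (Finset.finite_toSet (range (n + 1) ×ˢ range (n + 1)))
    rintro ⟨x, y⟩ hq
    have h6 := hq.2.2.1
    simp only at h6
    rw [mem_coe]
    simp only [mem_product, mem_range]
    omega

end Pool.Agent.Results.MP_94fdc2_nt.PrimeSummandAlmostPrimes
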